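import Pool.Agent.Work.MP_54723a_co.FlashU.AtMost

/-!
# Monotone flashes and rainbows: colourings with at most `k` colours
-/

set_option autoImplicit false

namespace Pool.Agent.Results.MP_54723a_co.AtMostKColours

/-- Let `l ≥ 1`, `k ≥ 1` and let `c` be an edge colouring of the complete graph on `n` ordered
vertices with at most `k` colours and with neither an `l`-flash nor a `k`-rainbow. Then
`n ≤ (l / 2 ^ ⌊log₂ l⌋) * l ^ (k - 1)`; hence `n ≤ l ^ (k - 1)` if `l` is a power of two, and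
`n < 2 * l ^ (k - 1)` for every `l`. -/
theorem result (l k n : ℕ) (hl : 1 ≤ l) (hk : 1 ≤ k) (c : Fin n → Fin n → ℕ)
    (S : Finset ℕ) (hS : S.card ≤ k) (hc : ∀ u v, u < v → c u v ∈ S)
    (hflash : ¬ ∃ x : Fin (l + 1) → Fin n, StrictMono x ∧
        ∃ col : ℕ, ∀ i : Fin l, c (x i.castSucc) (x i.succ) = col)
    (hrain : ¬ ∃ y : Fin (k + 1) → Fin n, StrictMono y ∧
        Function.Injective (fun i : Fin k => c (y i.castSucc) (y i.succ))) :
    2 ^ Nat.log 2 l * n ≤ l ^ k ∧ (∀ j : ℕ, l = 2 ^ j → n ≤ l ^ (k - 1)) ∧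
      n < 2 * l ^ (k - 1) := by
  have h := FlashU.PowTwo.at_most l k n hl c S hS hc hflash hrain
  exact ⟨h, FlashU.PowTwo.at_most_pow l k n hk h, FlashU.PowTwo.at_most_two l k n hl hk h⟩

end Pool.Agent.Results.MP_54723a_co.AtMostKColours
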